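import Mathlib

/-!
Two facts on algebraic independence.
-/

set_option autoImplicit false

open Cardinal

namespace Pool.Agent.K9h76.GM

/-- the inverses of finitely many algebraically independent elements of a field are algebraically
independent -/
lemma algInd_inv {F K : Type} [Field F] [Field K] [Algebra F K] {ι : Type} [Finite ι] {x : ι → K}
    (hx : AlgebraicIndependent F x) : AlgebraicIndependent F (fun i => (x i)⁻¹) := by
  classical
  set E := IntermediateField.adjoin F (Set.range x) with hE
  let x' : ι → E := fun i => ⟨x i, IntermediateField.subset_adjoin _ _ ⟨i, rfl⟩⟩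
  have hx' : AlgebraicIndependent F x' := AlgebraicIndependent.of_comp E.val (by exact hx)
  have h1 : #ι ≤ Algebra.trdeg F E := hx'.cardinalMk_le_trdeg
  let y' : ι → E := fun i => (x' i)⁻¹
  have h2 : ∀ (e : K) (he : e ∈ IntermediateField.adjoin F (Set.range x)),
      IsAlgebraic (Algebra.adjoin F (Set.range y')) (⟨e, he⟩ : E) := by
    intro e he
    induction he using IntermediateField.adjoin_induction with
    | mem e he =>
      obtain ⟨i, rfl⟩ := he
      have h3 : IsAlgebraic (Algebra.adjoin F (Set.range y')) (y' i) :=
        isAlgebraic_algebraMap (⟨y' i, Algebra.subset_adjoin ⟨i, rfl⟩⟩ :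
          Algebra.adjoin F (Set.range y'))
      have h4 := h3.inv
      have h5 : (y' i)⁻¹ = x' i := inv_inv _
      rw [h5] at h4
      exact h4
    | algebraMap a => exact isAlgebraic_algebraMap (algebraMap F (Algebra.adjoin F (Set.range y')) a)
    | add a b ha hb h3 h4 => exact h3.add h4
    | inv a ha h3 => exact h3.inv
    | mul a b ha hb h3 h4 => exact h3.mul h4
  have h3 : Algebra.IsAlgebraic (Algebra.adjoin F (Set.range y')) E := ⟨fun e => h2 e.1 e.2⟩
  have h4 := Algebra.IsAlgebraic.isTranscendenceBasis_of_le_trdeg_of_finite F y' h1
  exact h4.1.map' (f := E.val) (by exact Subtype.val_injective)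

/-- an algebraically independent family in a field bounds its transcendence degree -/
lemma card_le_trdeg {F K : Type} [Field F] [Field K] [Algebra F K] {M : IntermediateField F K}
    {κ : Type} {x : κ → K} (hx : AlgebraicIndependent F x) (h : ∀ i, x i ∈ M) :
    #κ ≤ Algebra.trdeg F M := by
  have hx' : AlgebraicIndependent F (fun i => (⟨x i, h i⟩ : M)) :=
    AlgebraicIndependent.of_comp M.val (by exact hx)
  exact hx'.cardinalMk_le_trdeg

/-- if a family of elements of `M` is algebraically independent over a subfield `L'` then the
transcendence degree of `M` is at least the size of the family plus that of a common subfield -/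
lemma add_le_trdeg {F K : Type} [Field F] [Field K] [Algebra F K] {L L' M : IntermediateField F K}
    (hL : L ≤ L') (hM : L ≤ M) {κ : Type} {y : κ → K} (hy : AlgebraicIndependent L' y)
    (h : ∀ i, y i ∈ M) : #κ + Algebra.trdeg F L ≤ Algebra.trdeg F M := by
  have hy' : AlgebraicIndependent L y := by
    let _ : Algebra L L' := (IntermediateField.inclusion hL).toAlgebra
    have : IsScalarTower L L' K := IsScalarTower.of_algebraMap_eq fun _ => rfl
    exact hy.restrictScalars (K := L') (IntermediateField.inclusion hL).injective
  obtain ⟨s, hs⟩ := exists_isTranscendenceBasis F L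
  have h1 := hs.cardinalMk_eq_trdeg
  have h2 := AlgebraicIndependent.sumElim_comp (R := F) (S := L) (A := K) hs.1 hy'
  have h3 := card_le_trdeg h2 (M := M) (by
    rintro (i | i)
    · exact h i
    · exact hM i.1.2)
  rw [Cardinal.mk_sum, Cardinal.lift_id, Cardinal.lift_id, h1] at h3
  exact h3

/-- the transcendence degree of a field generated by a family is at most the size of the family -/
lemma trdeg_adjoin_le {F K : Type} [Field F] [Field K] [Algebra F K] {ι : Type} (x : ι → K) :
    Algebra.trdeg F (IntermediateField.adjoin F (Set.range x)) ≤ #ι := by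
  classical
  set E := IntermediateField.adjoin F (Set.range x) with hE
  let x' : ι → E := fun i => ⟨x i, IntermediateField.subset_adjoin _ _ ⟨i, rfl⟩⟩
  have h2 : ∀ (e : K) (he : e ∈ IntermediateField.adjoin F (Set.range x)),
      IsAlgebraic (Algebra.adjoin F (Set.range x')) (⟨e, he⟩ : E) := by
    intro e he
    induction he using IntermediateField.adjoin_induction with
    | mem e he =>
      obtain ⟨i, rfl⟩ := he
      exact isAlgebraic_algebraMap (⟨x' i, Algebra.subset_adjoin ⟨i, rfl⟩⟩ :
          Algebra.adjoin F (Set.range x'))
    | algebraMap a => exact isAlgebraic_algebraMap (algebraMap F (Algebra.adjoin F (Set.range x')) a)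
    | add a b ha hb h3 h4 => exact h3.add h4
    | inv a ha h3 => exact h3.inv
    | mul a b ha hb h3 h4 => exact h3.mul h4
  have h3 : Algebra.IsAlgebraic (Algebra.adjoin F (Set.range x')) E := ⟨fun e => h2 e.1 e.2⟩
  exact (Algebra.IsAlgebraic.trdeg_le_cardinalMk F (Set.range x')).trans Cardinal.mk_range_le

end Pool.Agent.K9h76.GM
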