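import Mathlib
import Pool.Agent.W175.GF.Basic

/-!
Functions with isolated singularities on a connected open set: the identity theorem, and the
countability of the exceptional points (MP_26ad15_nt, meromorphic curves).
-/

set_option autoImplicit false

open Filter Topology Set

namespace Pool.Agent.K9h76.GM

open Pool.Agent.W175.GF (U U_open U_preconnected)

/-- the singularities in `Ω` are isolated -/
def Iso (Ω : Set ℂ) (φ : ℂ → ℂ) : Prop := ∀ p ∈ Ω, ∀ᶠ t in 𝓝[≠] p, AnalyticAt ℂ φ t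

/-- `φ` vanishes off a discrete set -/
def Van (Ω : Set ℂ) (φ : ℂ → ℂ) : Prop := ∀ p ∈ Ω, ∀ᶠ t in 𝓝[≠] p, φ t = 0

lemma Iso.of_mer {Ω : Set ℂ} {φ : ℂ → ℂ} (h : MeromorphicOn φ Ω) : Iso Ω φ :=
  fun p hp => (h p hp).eventually_analyticAt

lemma Iso.add {Ω : Set ℂ} {φ ψ : ℂ → ℂ} (h : Iso Ω φ) (h' : Iso Ω ψ) :
    Iso Ω (fun t => φ t + ψ t) := fun p hp => by
  filter_upwards [h p hp, h' p hp] with t h1 h2 using h1.fun_add h2

lemma Iso.sub {Ω : Set ℂ} {φ ψ : ℂ → ℂ} (h : Iso Ω φ) (h' : Iso Ω ψ) :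
    Iso Ω (fun t => φ t - ψ t) := fun p hp => by
  filter_upwards [h p hp, h' p hp] with t h1 h2 using h1.fun_sub h2

lemma Iso.mul {Ω : Set ℂ} {φ ψ : ℂ → ℂ} (h : Iso Ω φ) (h' : Iso Ω ψ) :
    Iso Ω (fun t => φ t * ψ t) := fun p hp => by
  filter_upwards [h p hp, h' p hp] with t h1 h2 using h1.fun_mul h2

lemma Iso.const {Ω : Set ℂ} (c : ℂ) : Iso Ω (fun _ => c) := fun _ _ =>
  Eventually.of_forall fun _ => analyticAt_const

lemma Iso.pow {Ω : Set ℂ} {φ : ℂ → ℂ} (h : Iso Ω φ) (n : ℕ) :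
    Iso Ω (fun t => φ t ^ n) := fun p hp => by
  filter_upwards [h p hp] with t h1 using h1.fun_pow n

lemma Iso.sum {Ω : Set ℂ} {α : Type} (S : Finset α) {φ : α → ℂ → ℂ}
    (h : ∀ a ∈ S, Iso Ω (φ a)) : Iso Ω (fun t => ∑ a ∈ S, φ a t) := by
  classical
  induction S using Finset.induction_on with
  | empty => simpa using! Iso.const (Ω := Ω) 0
  | insert a S ha IH =>
    have h1 := (h a (Finset.mem_insert_self a S)).add
      (IH fun b hb => h b (Finset.mem_insert_of_mem hb))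
    simpa only [Finset.sum_insert ha] using h1

lemma Iso.prod {Ω : Set ℂ} {α : Type} (S : Finset α) {φ : α → ℂ → ℂ}
    (h : ∀ a ∈ S, Iso Ω (φ a)) : Iso Ω (fun t => ∏ a ∈ S, φ a t) := by
  classical
  induction S using Finset.induction_on with
  | empty => simpa using! Iso.const (Ω := Ω) 1
  | insert a S ha IH =>
    have h1 := (h a (Finset.mem_insert_self a S)).mul
      (IH fun b hb => h b (Finset.mem_insert_of_mem hb))
    simpa only [Finset.prod_insert ha] using h1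

lemma Iso.comp {Ω : Set ℂ} {φ G : ℂ → ℂ} (hG : Differentiable ℂ G) (h : Iso Ω φ) :
    Iso Ω (fun t => G (φ t)) := fun p hp => by
  filter_upwards [h p hp] with t h1
  exact (hG.analyticAt (φ t)).comp' h1

/-- punctured discs are preconnected -/
lemma pball_preconnected (p : ℂ) (r : ℝ) : IsPreconnected (Metric.ball p r \ {p}) := by
  have : Metric.ball p r \ {p} = (fun s => p + s) '' U r := by
    ext t
    simp only [mem_diff, Metric.mem_ball, mem_singleton_iff, mem_image, U]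
    constructor
    · rintro ⟨h1, h2⟩
      refine ⟨t - p, ⟨norm_pos_iff.2 (sub_ne_zero.2 h2), ?_⟩, by ring⟩
      rwa [dist_eq_norm] at h1
    · rintro ⟨s, ⟨h1, h2⟩, rfl⟩
      refine ⟨?_, fun h => ?_⟩
      · rw [dist_eq_norm]; simpa using h2
      · have : s = 0 := by simpa using h
        rw [this] at h1; simp at h1
  rw [this]
  exact (U_preconnected r).image _ (by fun_prop)

/-- a punctured ball in which a property holds that holds near a point -/
lemma exists_pball {Ω : Set ℂ} (hΩ : IsOpen Ω) {p : ℂ} (hp : p ∈ Ω) {P : ℂ → Prop}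
    (h : ∀ᶠ t in 𝓝[≠] p, P t) :
    ∃ r > 0, Metric.ball p r ⊆ Ω ∧ ∀ t ∈ Metric.ball p r \ {p}, P t := by
  rw [eventually_nhdsWithin_iff] at h
  obtain ⟨r, hr, h1⟩ := Metric.eventually_nhds_iff_ball.1 (h.and (hΩ.mem_nhds hp))
  exact ⟨r, hr, fun t ht => (h1 t ht).2, fun t ht => (h1 t ht.1).1 ht.2⟩

lemma pball_open (p : ℂ) (r : ℝ) : IsOpen (Metric.ball p r \ {p}) :=
  Metric.isOpen_ball.sdiff isClosed_singleton

/-- vanishing near one point implies vanishing -/
lemma van_of_one {Ω : Set ℂ} (hΩ : IsOpen Ω) (hc : IsPreconnected Ω) {φ : ℂ → ℂ} (h : Iso Ω φ)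
    {p : ℂ} (hp : p ∈ Ω) (h0 : ∀ᶠ t in 𝓝[≠] p, φ t = 0) : Van Ω φ := by
  classical
  set A : Set ℂ := {q | q ∈ Ω ∧ ∀ᶠ t in 𝓝[≠] q, φ t = 0} with hA
  set B : Set ℂ := {q | q ∈ Ω ∧ ¬ ∀ᶠ t in 𝓝[≠] q, φ t = 0} with hB
  have hAo : IsOpen A := by
    rw [Metric.isOpen_iff]
    rintro q ⟨hq, hq0⟩
    obtain ⟨r, hr, h1, h2⟩ := exists_pball hΩ hq hq0
    refine ⟨r, hr, fun s hs => ⟨h1 hs, ?_⟩⟩
    by_cases hsq : s = q
    · rw [hsq]; exact hq0
    · refine eventually_nhdsWithin_of_eventually_nhds ?_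
      exact eventually_of_mem ((pball_open q r).mem_nhds ⟨hs, hsq⟩) h2
  have hBo : IsOpen B := by
    rw [Metric.isOpen_iff]
    rintro q ⟨hq, hq0⟩
    obtain ⟨r, hr, h1, h2⟩ := exists_pball hΩ hq (h q hq)
    refine ⟨r, hr, fun s hs => ⟨h1 hs, fun hs0 => hq0 ?_⟩⟩
    by_cases hsq : s = q
    · rwa [hsq] at hs0
    · have hmem : s ∈ Metric.ball q r \ {q} := ⟨hs, hsq⟩
      have hev : ∀ᶠ t in 𝓝 s, φ t = 0 :=
        (h2 s hmem).frequently_zero_iff_eventually_zero.1 hs0.frequently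
      have hz : EqOn φ 0 (Metric.ball q r \ {q}) :=
        AnalyticOnNhd.eqOn_zero_of_preconnected_of_eventuallyEq_zero (fun t ht => h2 t ht)
          (pball_preconnected q r) hmem hev
      rw [eventually_nhdsWithin_iff]
      exact eventually_of_mem (Metric.ball_mem_nhds q hr) fun t ht htq => hz ⟨ht, htq⟩
  intro q hq
  by_contra hcon
  obtain ⟨x, -, hx1, hx2⟩ := hc A B hAo hBo
    (fun x hx => by
      by_cases hx0 : ∀ᶠ t in 𝓝[≠] x, φ t = 0
      · exact Or.inl ⟨hx, hx0⟩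
      · exact Or.inr ⟨hx, hx0⟩)
    ⟨p, hp, hp, h0⟩ ⟨q, hq, hq, hcon⟩
  exact hx2.2 hx1.2

lemma countable_of_isolated {A : Set ℂ} (h : ∀ p ∈ A, ∀ᶠ t in 𝓝[≠] p, t ∉ A) :
    A.Countable := by
  have hd : DiscreteTopology A := by
    rw [discreteTopology_subtype_iff]
    intro p hp
    rw [← disjoint_iff, disjoint_principal_right]
    exact h p hp
  exact (HereditarilyLindelofSpace.isLindelof A).countable hd

/-- off a countable set, `φ` vanishes at a point only if it vanishes everywhere -/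
lemma exc_countable {Ω : Set ℂ} (hΩ : IsOpen Ω) (hc : IsPreconnected Ω) {φ : ℂ → ℂ}
    (h : Iso Ω φ) : {t | t ∈ Ω ∧ ¬ (φ t = 0 ↔ Van Ω φ)}.Countable := by
  by_cases hv : Van Ω φ
  · refine countable_of_isolated ?_
    rintro p ⟨hp, -⟩
    filter_upwards [hv p hp] with t ht
    rintro ⟨-, h2⟩
    exact h2 ⟨fun _ => hv, fun _ => ht⟩
  · -- the points at which `φ` is not analytic
    have h1 : {t | t ∈ Ω ∧ ¬ AnalyticAt ℂ φ t}.Countable := by
      refine countable_of_isolated ?_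
      rintro p ⟨hp, -⟩
      filter_upwards [h p hp] with t ht h2 using h2.2 ht
    have h2 : {t | t ∈ Ω ∧ AnalyticAt ℂ φ t ∧ φ t = 0}.Countable := by
      refine countable_of_isolated ?_
      rintro p ⟨hp, ha, -⟩
      rcases ha.eventually_eq_zero_or_eventually_ne_zero with h3 | h3
      · exact absurd (van_of_one hΩ hc h hp (eventually_nhdsWithin_of_eventually_nhds h3)) hv
      · filter_upwards [h3] with t ht h4 using ht h4.2.2
    refine (h1.union h2).mono ?_
    rintro t ⟨ht, h3⟩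
    by_cases ha : AnalyticAt ℂ φ t
    · right
      refine ⟨ht, ha, ?_⟩
      by_contra h4
      exact h3 ⟨fun h5 => absurd h5 h4, fun h5 => absurd h5 hv⟩
    · exact Or.inl ⟨ht, ha⟩

end Pool.Agent.K9h76.GM
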