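import Mathlib
import Pool.Agent.K9h76.GM.Basic
import Pool.Agent.W175.GF.Stm

/-!
The local theorem of the starting library (`Pool.Agent.W175.GF.ltF`) in terms of meromorphic
functions near a point.
-/

set_option autoImplicit false

open Filter Topology Set Complex

namespace Pool.Agent.K9h76.GM

open Pool.Agent.W175.GF (U Mer S_LT)

lemma zpow_le_natAbs {x : ℝ} (h0 : 0 < x) (h1 : x < 1) (m : ℤ) : x ^ m ≤ x⁻¹ ^ m.natAbs := by
  rw [inv_pow, ← zpow_natCast, ← zpow_neg]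
  apply zpow_le_zpow_right_of_le_one₀ h0 h1.le
  omega

/-- values of `Γ` at functions with a pole at `p` are independent over the functions meromorphic
at `p` -/
theorem local_thm (hLT : S_LT) {p : ℂ} {ι : Type} [Fintype ι] (f : ι → ℂ → ℂ)
    (hpole : ∀ i, meromorphicOrderAt (f i) p < 0)
    (hH : ∀ i j, i ≠ j → ∀ a b : ℚ, ¬ ∀ᶠ t in 𝓝[≠] p, f i t = a * f j t + b)
    (N : Finset (ι → ℕ)) (c : (ι → ℕ) → ℂ → ℂ) (hcm : ∀ k ∈ N, MeromorphicAt (c k) p)
    (hrel : ∀ᶠ t in 𝓝[≠] p, ∑ k ∈ N, c k t * ∏ i, (Gamma (f i t))⁻¹ ^ k i = 0) :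
    ∀ k ∈ N, ∀ᶠ t in 𝓝[≠] p, c k t = 0 := by
  classical
  have hf : ∀ i, MeromorphicAt (f i) p := fun i =>
    meromorphicAt_of_meromorphicOrderAt_ne_zero (hpole i).ne
  have h1 : ∀ i, ∃ (n : ℤ) (g : ℂ → ℂ) (K : ℝ), n < 0 ∧ g p ≠ 0 ∧
      ∀ᶠ t in 𝓝[≠] p, AnalyticAt ℂ (f i) t ∧ f i t = (t - p) ^ n * g t ∧
        ‖g t - g p‖ ≤ K * ‖t - p‖ := by
    intro i
    have hne : meromorphicOrderAt (f i) p ≠ ⊤ := fun h => by
      have := hpole i
      rw [h] at this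
      exact absurd this (by simp)
    obtain ⟨n, hn⟩ := WithTop.ne_top_iff_exists.1 hne
    have hn0 : n < 0 := by
      have := hpole i
      rw [← hn] at this
      exact_mod_cast this
    obtain ⟨g, hg, hg0, hgf⟩ := (meromorphicOrderAt_eq_int_iff (hf i)).1 hn.symm
    obtain ⟨K, hK⟩ := hg.differentiableAt.isBigO_sub.bound
    refine ⟨n, g, K, hn0, hg0, ?_⟩
    filter_upwards [(hf i).eventually_analyticAt, hgf,
      eventually_nhdsWithin_of_eventually_nhds hK] with t h2 h3 h4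
    exact ⟨h2, by simpa using h3, h4⟩
  choose n g K hn hg hev using h1
  have h2 : ∀ k : ι → ℕ, ∃ (D : ℕ) (C : ℝ), k ∈ N → ∃ δ > 0, ∀ t : ℂ, ‖t - p‖ < δ → t ≠ p →
      AnalyticAt ℂ (c k) t ∧ ‖c k t‖ ≤ C * ‖t - p‖⁻¹ ^ D := by
    intro k
    by_cases hk : k ∈ N
    · obtain ⟨m, G, hG, hGf⟩ := MeromorphicAt.iff_eventuallyEq_zpow_smul_analyticAt.1 (hcm k hk)
      have hb : ∀ᶠ t in 𝓝 p, ‖G t‖ ≤ ‖G p‖ + 1 := by
        have := hG.continuousAt.norm.eventually_lt (continuousAt_const (y := ‖G p‖ + 1))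
          (by linarith)
        filter_upwards [this] with t ht using ht.le
      refine ⟨m.natAbs, ‖G p‖ + 1, fun _ => ?_⟩
      have h3 := (hcm k hk).eventually_analyticAt.and (hGf.and
        (eventually_nhdsWithin_of_eventually_nhds hb))
      rw [eventually_nhdsWithin_iff] at h3
      obtain ⟨δ, hδ, h4⟩ := Metric.eventually_nhds_iff_ball.1 h3
      refine ⟨min δ 1, lt_min hδ one_pos, fun t ht htp => ?_⟩
      have hmem : t ∈ Metric.ball p δ := by
        rw [Metric.mem_ball, dist_eq_norm]; exact ht.trans_le (min_le_left _ _)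
      obtain ⟨h5, h6, h7⟩ := h4 t hmem htp
      refine ⟨h5, ?_⟩
      have h8 : 0 < ‖t - p‖ := norm_pos_iff.2 (sub_ne_zero.2 htp)
      rw [h6, smul_eq_mul, norm_mul, norm_zpow, mul_comm]
      exact mul_le_mul h7 (zpow_le_natAbs h8 (ht.trans_le (min_le_right _ _)) m)
        (by positivity) (by positivity)
    · exact ⟨0, 0, fun h => absurd h hk⟩
  choose D C hC using h2
  have h3 : ∀ᶠ t in 𝓝[≠] p, (∀ i, AnalyticAt ℂ (f i) t ∧ f i t = (t - p) ^ n i * g i t ∧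
        ‖g i t - g i p‖ ≤ K i * ‖t - p‖) ∧
      (∀ k ∈ N, AnalyticAt ℂ (c k) t ∧ ‖c k t‖ ≤ C k * ‖t - p‖⁻¹ ^ D k) ∧
      ∑ k ∈ N, c k t * ∏ i, (Gamma (f i t))⁻¹ ^ k i = 0 := by
    refine (eventually_all.2 hev).and (Eventually.and ?_ hrel)
    rw [Finset.eventually_all]
    intro k hk
    obtain ⟨δ, hδ, h4⟩ := hC k hk
    rw [eventually_nhdsWithin_iff]
    refine Metric.eventually_nhds_iff_ball.2 ⟨δ, hδ, fun t ht htp => h4 t ?_ htp⟩
    rwa [Metric.mem_ball, dist_eq_norm] at ht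
  rw [eventually_nhdsWithin_iff] at h3
  obtain ⟨r₀, hr₀, h4⟩ := Metric.eventually_nhds_iff_ball.1 h3
  set r : ℝ := min r₀ (1 / 2) with hr
  have hr0 : 0 < r := lt_min hr₀ (by norm_num)
  have hr1 : r < 1 := (min_le_right _ _).trans_lt (by norm_num)
  have hU : ∀ s ∈ U r, p + s ∈ Metric.ball p r₀ ∧ p + s ≠ p ∧ s ≠ 0 := by
    rintro s ⟨h5, h6⟩
    have hs0 : s ≠ 0 := norm_pos_iff.1 h5
    refine ⟨?_, fun h => hs0 (by simpa using h), hs0⟩
    rw [Metric.mem_ball, dist_eq_norm, add_sub_cancel_left]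
    exact h6.trans_le (min_le_left _ _)
  have hP : ∀ s ∈ U r, _ := fun s hs => h4 (p + s) (hU s hs).1 (hU s hs).2.1
  have hdiff : ∀ φ : ℂ → ℂ, (∀ s ∈ U r, AnalyticAt ℂ φ (p + s)) →
      DifferentiableOn ℂ (fun s => φ (p + s)) (U r) := by
    intro φ h s hs
    have h5 : DifferentiableAt ℂ (fun s : ℂ => p + s) s := by fun_prop
    exact ((h s hs).differentiableAt.comp s h5).differentiableWithinAt
  have hmain := hLT r ι (fun i s => f i (p + s)) hr0 hr1
    (fun i => hdiff _ fun s hs => ((hP s hs).1 i).1) ?_ ?_ N (fun k s => c k (p + s)) ?_ ?_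
  · intro k hk
    have h5 := hmain k hk
    rw [eventually_nhdsWithin_iff]
    refine Metric.eventually_nhds_iff_ball.2 ⟨r, hr0, fun t ht htp => ?_⟩
    have h6 := h5 (t - p) ⟨norm_pos_iff.2 (sub_ne_zero.2 htp), by
      rwa [Metric.mem_ball, dist_eq_norm] at ht⟩
    simpa using h6
  · intro i
    refine ⟨(-n i).toNat, g i p, K i, by have := hn i; omega, hg i, fun s hs => ?_⟩
    obtain ⟨-, h6, h7⟩ := (hP s hs).1 i
    obtain ⟨-, -, hs0⟩ := hU s hs
    have hns : 0 < ‖s‖ := norm_pos_iff.2 hs0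
    have hm : n i = -(((-n i).toNat : ℕ) : ℤ) := by have := hn i; omega
    simp only [add_sub_cancel_left] at h6 h7
    rw [h6]
    have h8 : s ^ n i = s⁻¹ ^ (-n i).toNat := by
      conv_lhs => rw [hm]
      rw [zpow_neg, zpow_natCast, inv_pow]
    rw [h8, show s⁻¹ ^ (-n i).toNat * g i (p + s) - g i p * s⁻¹ ^ (-n i).toNat =
      s⁻¹ ^ (-n i).toNat * (g i (p + s) - g i p) by ring, norm_mul, norm_pow, norm_inv]
    have hm1 : 1 ≤ (-n i).toNat := by have := hn i; omega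
    calc ‖s‖⁻¹ ^ (-n i).toNat * ‖g i (p + s) - g i p‖ ≤ ‖s‖⁻¹ ^ (-n i).toNat * (K i * ‖s‖) :=
          mul_le_mul_of_nonneg_left h7 (by positivity)
      _ = K i * (‖s‖⁻¹ ^ (-n i).toNat * ‖s‖) := by ring
      _ = K i * ‖s‖⁻¹ ^ ((-n i).toNat - 1) := by
          congr 1
          obtain ⟨m, hm2⟩ : ∃ m, (-n i).toNat = m + 1 := ⟨_, (Nat.sub_add_cancel hm1).symm⟩
          rw [hm2, Nat.add_sub_cancel, pow_succ, mul_assoc, inv_mul_cancel₀ hns.ne', mul_one]
  · intro i j hij a b h5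
    refine hH i j hij a b ?_
    rw [eventually_nhdsWithin_iff]
    refine Metric.eventually_nhds_iff_ball.2 ⟨r, hr0, fun t ht htp => ?_⟩
    have h6 := h5 (t - p) ⟨norm_pos_iff.2 (sub_ne_zero.2 htp), by
      rwa [Metric.mem_ball, dist_eq_norm] at ht⟩
    simpa using h6
  · intro k hk
    refine ⟨hdiff _ fun s hs => ((hP s hs).2.1 k hk).1, D k, C k, fun s hs => ?_⟩
    have h5 := ((hP s hs).2.1 k hk).2
    simpa using h5
  · intro s hs
    exact (hP s hs).2.2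

end Pool.Agent.K9h76.GM
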