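import Mathlib
import Pool.Agent.K9h76.GM.Basic
import Pool.Agent.K9h76.GM.Local

/-!
Values of `Γ` at meromorphic functions on a connected open set which have poles, at the same or at
different points, are algebraically independent over the field of the meromorphic functions on
this set.
-/

set_option autoImplicit false

open Filter Topology Set Complex

namespace Pool.Agent.K9h76.GM

open Pool.Agent.W175.GF (S_LT)

/-- the composition of an entire function with a function without pole at `p` -/
lemma mer_comp {G f : ℂ → ℂ} (hG : Differentiable ℂ G) {p : ℂ} (hf : MeromorphicAt f p)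
    (h0 : ¬ meromorphicOrderAt f p < 0) : MeromorphicAt (fun t => G (f t)) p := by
  have h1 : ∃ g : ℂ → ℂ, AnalyticAt ℂ g p ∧ ∀ᶠ t in 𝓝[≠] p, f t = g t := by
    by_cases htop : meromorphicOrderAt f p = ⊤
    · exact ⟨fun _ => 0, analyticAt_const, meromorphicOrderAt_eq_top_iff.1 htop⟩
    · obtain ⟨n, hn⟩ := WithTop.ne_top_iff_exists.1 htop
      have hn0 : 0 ≤ n := by
        rw [← hn] at h0
        push Not at h0
        exact_mod_cast h0
      obtain ⟨g, hg, -, hgf⟩ := (meromorphicOrderAt_eq_int_iff hf).1 hn.symm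
      refine ⟨fun t => (t - p) ^ n.toNat * g t, by fun_prop, ?_⟩
      filter_upwards [hgf] with t ht
      rw [ht, smul_eq_mul]
      congr 1
      conv_lhs => rw [← Int.toNat_of_nonneg hn0]
      exact zpow_natCast _ _
  obtain ⟨g, hg, hgf⟩ := h1
  have h2 : AnalyticAt ℂ (fun t => G (g t)) p := (hG.analyticAt (g p)).fun_comp hg
  refine h2.meromorphicAt.congr ?_
  filter_upwards [hgf] with t ht
  rw [ht]

lemma entire_Ginv : Differentiable ℂ (fun z : ℂ => (Gamma z)⁻¹) :=
  differentiable_one_div_Gamma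

theorem func_thm (hLT : S_LT) {Ω : Set ℂ} (hΩ : IsOpen Ω) (hc : IsPreconnected Ω) :
    ∀ (m : ℕ) (ι : Type) [Fintype ι], Fintype.card ι = m → ∀ f : ι → ℂ → ℂ,
      (∀ i, MeromorphicOn (f i) Ω) → (∀ i, ∃ p ∈ Ω, meromorphicOrderAt (f i) p < 0) →
      (∀ i j, i ≠ j → ∀ a b : ℚ, ¬ Van Ω (fun t => f i t - (a * f j t + b))) →
      ∀ (N : Finset (ι → ℕ)) (c : (ι → ℕ) → ℂ → ℂ), (∀ k ∈ N, MeromorphicOn (c k) Ω) →
      Van Ω (fun t => ∑ k ∈ N, c k t * ∏ i, (Gamma (f i t))⁻¹ ^ k i) →
      ∀ k ∈ N, Van Ω (c k) := by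
  classical
  intro m
  induction m using Nat.strong_induction_on with
  | _ m IH =>
  intro ι _ hcard f hf hpole hH N c hcm hrel k hk
  rcases isEmpty_or_nonempty ι with hem | ⟨⟨i₀⟩⟩
  · have hN : N = {k} := by
      ext l
      rw [Finset.mem_singleton]
      exact ⟨fun _ => Subsingleton.elim _ _, fun h => h ▸ hk⟩
    intro p hp
    filter_upwards [hrel p hp] with t ht
    rw [hN] at ht
    simpa using ht
  · obtain ⟨p₀, hp₀, ho⟩ := hpole i₀
    set pr : ι → Prop := fun i => meromorphicOrderAt (f i) p₀ < 0 with hpr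
    let resJ : (ι → ℕ) → ({i // pr i} → ℕ) := fun k j => k j
    let resI : (ι → ℕ) → ({i // ¬ pr i} → ℕ) := fun k j => k j
    let glue : ({i // pr i} → ℕ) → ({i // ¬ pr i} → ℕ) → (ι → ℕ) :=
      fun κ l i => if h : pr i then κ ⟨i, h⟩ else l ⟨i, h⟩
    have hglue : ∀ k : ι → ℕ, glue (resJ k) (resI k) = k := by
      intro k
      funext i
      by_cases h : pr i
      · simp only [glue, resJ, dif_pos h]
      · simp only [glue, resI, dif_neg h]
    set C : ({i // pr i} → ℕ) → ℂ → ℂ := fun κ t =>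
      ∑ k ∈ N with resJ k = κ, c k t * ∏ i : {i // ¬ pr i}, (Gamma (f i t))⁻¹ ^ k i with hC
    have hsplit : ∀ t, ∑ κ ∈ N.image resJ, C κ t * ∏ j : {i // pr i}, (Gamma (f j t))⁻¹ ^ κ j =
        ∑ k ∈ N, c k t * ∏ i, (Gamma (f i t))⁻¹ ^ k i := by
      intro t
      rw [← Finset.sum_fiberwise_of_maps_to (g := resJ) (t := N.image resJ)
        (fun k hk => Finset.mem_image_of_mem _ hk)]
      refine Finset.sum_congr rfl fun κ _ => ?_
      rw [hC]
      simp only
      rw [Finset.sum_mul]
      refine Finset.sum_congr rfl fun k hk => ?_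
      have hk2 : resJ k = κ := (Finset.mem_filter.1 hk).2
      rw [← Fintype.prod_subtype_mul_prod_subtype pr fun i => (Gamma (f i t))⁻¹ ^ k i]
      have : ∏ j : {i // pr i}, (Gamma (f j t))⁻¹ ^ κ j =
          ∏ j : {i // pr i}, (Gamma (f j t))⁻¹ ^ k j := by
        rw [← hk2]
      rw [this]
      ring
    have hCmer : ∀ κ, MeromorphicAt (C κ) p₀ := by
      intro κ
      rw [hC]
      refine MeromorphicAt.fun_sum fun k hk => ?_
      refine MeromorphicAt.fun_mul (hcm k (Finset.mem_filter.1 hk).1 p₀ hp₀) ?_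
      refine MeromorphicAt.fun_prod fun i _ => ?_
      exact (mer_comp entire_Ginv (hf i p₀ hp₀) i.2).fun_pow _
    have hCiso : ∀ κ, Iso Ω (C κ) := by
      intro κ
      refine Iso.sum _ fun k hk => ?_
      refine (Iso.of_mer (hcm k (Finset.mem_filter.1 hk).1)).mul ?_
      refine Iso.prod _ fun i _ => ?_
      exact (Iso.comp entire_Ginv (Iso.of_mer (hf i))).pow _
    have hloc : ∀ κ ∈ N.image resJ, ∀ᶠ t in 𝓝[≠] p₀, C κ t = 0 := by
      refine local_thm hLT (ι := {i // pr i}) (fun j => f j) (fun j => j.2) ?_ (N.image resJ) C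
        (fun κ _ => hCmer κ) ?_
      · intro i j hij a b h
        refine hH i j (fun h' => hij (Subtype.ext h')) a b ?_
        refine van_of_one hΩ hc ?_ hp₀ ?_
        · exact (Iso.of_mer (hf i)).sub (((Iso.const _).mul (Iso.of_mer (hf j))).add (Iso.const _))
        · filter_upwards [h] with t ht
          rw [ht, sub_self]
      · filter_upwards [hrel p₀ hp₀] with t ht
        rw [hsplit t]; exact ht
    have hvan : Van Ω (C (resJ k)) :=
      van_of_one hΩ hc (hCiso _) hp₀ (hloc _ (Finset.mem_image_of_mem _ hk))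
    have hlt : Fintype.card {i // ¬ pr i} < m := by
      rw [← hcard]
      exact Fintype.card_subtype_lt (x := i₀) (fun h => h ho)
    have hIH := IH _ hlt {i // ¬ pr i} rfl (fun i => f i) (fun i => hf i) (fun i => hpole i)
      (fun i j hij => hH i j fun h' => hij (Subtype.ext h'))
      ((N.filter fun k' => resJ k' = resJ k).image resI) (fun l => c (glue (resJ k) l)) ?_ ?_
      (resI k) (Finset.mem_image_of_mem _ (Finset.mem_filter.2 ⟨hk, rfl⟩))
    · simpa only [hglue] using hIH
    · intro l hl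
      obtain ⟨k', hk', rfl⟩ := Finset.mem_image.1 hl
      obtain ⟨h1, h2⟩ := Finset.mem_filter.1 hk'
      rw [← h2, hglue]
      exact hcm k' h1
    · intro p hp
      filter_upwards [hvan p hp] with t ht
      rw [Finset.sum_image]
      · rw [hC] at ht
        simp only at ht
        rw [← ht]
        refine Finset.sum_congr rfl fun k' hk' => ?_
        have h2 := (Finset.mem_filter.1 hk').2
        rw [← h2, hglue]
      · intro k₁ hk₁ k₂ hk₂ h12
        have h1 := (Finset.mem_filter.1 hk₁).2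
        have h2 := (Finset.mem_filter.1 hk₂).2
        rw [← hglue k₁, ← hglue k₂, h1, h2, h12]

end Pool.Agent.K9h76.GM
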