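import Mathlib
import Pool.Agent.K9h76.GM.Func
import Pool.Agent.K9h76.GM.Alg
import Pool.Agent.W175.GF.Final
import Pool.Agent.TH814.GD.Exc

/-!
Values of `Γ` at the values of a countable family of meromorphic functions, at all but countably
many points.
-/

set_option autoImplicit false

open Filter Topology Set Complex

namespace Pool.Agent.K9h76.GM

variable {F : Type} [Field F] [Algebra F ℂ]

variable (F) in
/-- the value at `t` of a polynomial in the functions of a family -/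
noncomputable def ev (𝓜 : Set (ℂ → ℂ)) (t : ℂ) : MvPolynomial 𝓜 F →ₐ[F] ℂ :=
  MvPolynomial.aeval (fun g : 𝓜 => g.1 t)

lemma ev_mer {𝓜 : Set (ℂ → ℂ)} {Ω : Set ℂ} (h𝓜 : ∀ g ∈ 𝓜, MeromorphicOn g Ω)
    (q : MvPolynomial 𝓜 F) : MeromorphicOn (fun t => ev F 𝓜 t q) Ω := by
  induction q using MvPolynomial.induction_on with
  | C a =>
    have : (fun t => ev F 𝓜 t (MvPolynomial.C a)) = fun _ => (algebraMap F ℂ a) := by
      funext t
      simp [ev]
    rw [this]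
    exact MeromorphicOn.const _
  | add p q hp hq =>
    have : (fun t => ev F 𝓜 t (p + q)) = fun t => ev F 𝓜 t p + ev F 𝓜 t q := by
      funext t
      rw [map_add]
    rw [this]
    exact hp.fun_add hq
  | mul_X p g hp =>
    have : (fun t => ev F 𝓜 t (p * MvPolynomial.X g)) = fun t => ev F 𝓜 t p * g.1 t := by
      funext t
      rw [map_mul]
      simp [ev]
    rw [this]
    exact hp.fun_mul (h𝓜 g.1 g.2)

/-- a polynomial in the values of `1/Γ` with coefficients polynomials in the functions of a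
family -/
noncomputable def Phi {𝓜 : Set (ℂ → ℂ)} {n : ℕ} (f : Fin n → 𝓜)
    (P : MvPolynomial (Fin n) (MvPolynomial 𝓜 F)) (t : ℂ) : ℂ :=
  MvPolynomial.eval₂ (ev F 𝓜 t).toRingHom (fun i => (Gamma ((f i).1 t))⁻¹) P

lemma Phi_eq {𝓜 : Set (ℂ → ℂ)} {n : ℕ} (f : Fin n → 𝓜)
    (P : MvPolynomial (Fin n) (MvPolynomial 𝓜 F)) (t : ℂ) :
    Phi f P t = ∑ k ∈ P.support, ev F 𝓜 t (P.coeff k) * ∏ i, (Gamma ((f i).1 t))⁻¹ ^ k i := by
  rw [Phi, MvPolynomial.eval₂_eq']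
  rfl

lemma Phi_iso {𝓜 : Set (ℂ → ℂ)} {Ω : Set ℂ} (h𝓜 : ∀ g ∈ 𝓜, MeromorphicOn g Ω) {n : ℕ}
    (f : Fin n → 𝓜) (P : MvPolynomial (Fin n) (MvPolynomial 𝓜 F)) : Iso Ω (Phi f P) := by
  have : Phi f P = fun t => ∑ k ∈ P.support, ev F 𝓜 t (P.coeff k) *
      ∏ i, (Gamma ((f i).1 t))⁻¹ ^ k i := funext fun t => Phi_eq f P t
  rw [this]
  refine Iso.sum _ fun k _ => (Iso.of_mer (ev_mer h𝓜 _)).mul ?_
  exact Iso.prod _ fun i _ => (Iso.comp entire_Ginv (Iso.of_mer (h𝓜 _ (f i).2))).pow _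

lemma Phi_van {𝓜 : Set (ℂ → ℂ)} {Ω : Set ℂ} (hΩ : IsOpen Ω) (hc : IsPreconnected Ω)
    (h𝓜 : ∀ g ∈ 𝓜, MeromorphicOn g Ω) {n : ℕ} (f : Fin n → 𝓜)
    (hpole : ∀ i, ∃ p ∈ Ω, meromorphicOrderAt (f i).1 p < 0)
    (hH : ∀ i j, i ≠ j → ∀ a b : ℚ, ¬ Van Ω (fun t => (f i).1 t - (a * (f j).1 t + b)))
    (P : MvPolynomial (Fin n) (MvPolynomial 𝓜 F)) (hP : Van Ω (Phi f P)) (k : Fin n →₀ ℕ) :
    Van Ω (fun t => ev F 𝓜 t (P.coeff k)) := by
  classical
  by_cases hk : k ∈ P.support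
  · let cf : (Fin n →₀ ℕ) → (Fin n → ℕ) := fun k i => k i
    have hcf : ∀ k, Finsupp.equivFunOnFinite.symm (cf k) = k := fun k => by ext; simp [cf]
    have hinj : Function.Injective cf := fun a b h => by
      rw [← hcf a, ← hcf b, h]
    have h1 := func_thm Pool.Agent.W175.GF.ltF hΩ hc n (Fin n) (Fintype.card_fin n)
      (fun i => (f i).1) (fun i => h𝓜 _ (f i).2) hpole hH (P.support.image cf)
      (fun l t => ev F 𝓜 t (P.coeff (Finsupp.equivFunOnFinite.symm l)))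
      (fun l _ => ev_mer h𝓜 _) ?_ (cf k) (Finset.mem_image_of_mem _ hk)
    · simp only [hcf] at h1
      exact h1
    · intro p hp
      filter_upwards [hP p hp] with t ht
      rw [Phi_eq] at ht
      rw [Finset.sum_image (fun k₁ _ k₂ _ h => hinj h), ← ht]
      refine Finset.sum_congr rfl fun l _ => ?_
      rw [hcf]
  · intro p _
    refine Eventually.of_forall fun t => ?_
    change ev F 𝓜 t (P.coeff k) = 0
    rw [MvPolynomial.notMem_support_iff.1 hk, map_zero]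

/-- the exceptional set of a family -/
def Exc (F : Type) [Field F] [Algebra F ℂ] (𝓜 : Set (ℂ → ℂ)) (Ω : Set ℂ) : Set ℂ :=
  (⋃ q : MvPolynomial 𝓜 F, {t | t ∈ Ω ∧ ¬ (ev F 𝓜 t q = 0 ↔ Van Ω fun t => ev F 𝓜 t q)}) ∪
    ⋃ n : ℕ, ⋃ f : Fin n → 𝓜, ⋃ P : MvPolynomial (Fin n) (MvPolynomial 𝓜 F),
      {t | t ∈ Ω ∧ ¬ (Phi f P t = 0 ↔ Van Ω (Phi f P))}

lemma mvc {R σ : Type} [CommSemiring R] [Countable R] [Countable σ] :
    Countable (MvPolynomial σ R) := by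
  rw [← Cardinal.mk_le_aleph0_iff]
  refine (MvPolynomial.cardinalMk_le_max).trans ?_
  have h1 : Cardinal.mk R ≤ Cardinal.aleph0 := Cardinal.mk_le_aleph0_iff.2 inferInstance
  have h2 : Cardinal.mk σ ≤ Cardinal.aleph0 := Cardinal.mk_le_aleph0_iff.2 inferInstance
  exact max_le (max_le h1 h2) le_rfl

lemma Exc_countable [Countable F] {𝓜 : Set (ℂ → ℂ)} (hcount : 𝓜.Countable) {Ω : Set ℂ} (hΩ : IsOpen Ω)
    (hc : IsPreconnected Ω) (h𝓜 : ∀ g ∈ 𝓜, MeromorphicOn g Ω) : (Exc F 𝓜 Ω).Countable := by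
  have : Countable 𝓜 := hcount.to_subtype
  have : Countable (MvPolynomial 𝓜 F) := mvc
  refine Countable.union (countable_iUnion fun q => exc_countable hΩ hc
    (Iso.of_mer (ev_mer h𝓜 q))) ?_
  refine countable_iUnion fun n => countable_iUnion fun f => ?_
  have : Countable (MvPolynomial (Fin n) (MvPolynomial 𝓜 F)) := mvc
  exact countable_iUnion fun P => exc_countable hΩ hc (Phi_iso h𝓜 f P)

lemma ev_iff {𝓜 : Set (ℂ → ℂ)} {Ω : Set ℂ} {t : ℂ} (ht : t ∈ Ω) (hE : t ∉ Exc F 𝓜 Ω)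
    (q : MvPolynomial 𝓜 F) : ev F 𝓜 t q = 0 ↔ Van Ω fun t => ev F 𝓜 t q := by
  by_contra h
  exact hE (Or.inl (mem_iUnion.2 ⟨q, ht, h⟩))

lemma Phi_iff {𝓜 : Set (ℂ → ℂ)} {Ω : Set ℂ} {t : ℂ} (ht : t ∈ Ω) (hE : t ∉ Exc F 𝓜 Ω) {n : ℕ}
    (f : Fin n → 𝓜) (P : MvPolynomial (Fin n) (MvPolynomial 𝓜 F)) :
    Phi f P t = 0 ↔ Van Ω (Phi f P) := by
  by_contra h
  exact hE (Or.inr (mem_iUnion.2 ⟨n, mem_iUnion.2 ⟨f, mem_iUnion.2 ⟨P, ht, h⟩⟩⟩))

/-- the field generated by the values at `t` -/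
noncomputable def vals (F : Type) [Field F] [Algebra F ℂ] (𝓜 : Set (ℂ → ℂ)) (t : ℂ) :
    IntermediateField F ℂ :=
  IntermediateField.adjoin F (Set.range fun g : 𝓜 => g.1 t)

open scoped IntermediateField.algebraAdjoinAdjoin in
/-- off the exceptional set the values of `Γ` are algebraically independent over the field
generated by the values of the family -/
theorem algInd {𝓜 : Set (ℂ → ℂ)} {Ω : Set ℂ} (hΩ : IsOpen Ω) (hc : IsPreconnected Ω)
    (h𝓜 : ∀ g ∈ 𝓜, MeromorphicOn g Ω) {t : ℂ} (ht : t ∈ Ω) (hE : t ∉ Exc F 𝓜 Ω) {n : ℕ}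
    (f : Fin n → 𝓜) (hpole : ∀ i, ∃ p ∈ Ω, meromorphicOrderAt (f i).1 p < 0)
    (hH : ∀ i j, i ≠ j → ∀ a b : ℚ, (f i).1 t ≠ a * (f j).1 t + b) :
    AlgebraicIndependent (vals F 𝓜 t) (fun i => Gamma ((f i).1 t)) := by
  have hH' : ∀ i j, i ≠ j → ∀ a b : ℚ, ¬ Van Ω (fun t => (f i).1 t - (a * (f j).1 t + b)) := by
    intro i j hij a b hv
    set q : MvPolynomial 𝓜 F := MvPolynomial.X (f i) -
      (MvPolynomial.C (a : F) * MvPolynomial.X (f j) + MvPolynomial.C (b : F)) with hq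
    have hqe : ∀ s, ev F 𝓜 s q = (f i).1 s - (a * (f j).1 s + b) := by
      intro s
      simp [hq, ev]
    have h1 : Van Ω fun s => ev F 𝓜 s q := by
      simpa only [hqe] using hv
    have h2 := (ev_iff ht hE q).2 h1
    rw [hqe] at h2
    exact hH i j hij a b (sub_eq_zero.1 h2)
  set S : Set ℂ := Set.range fun g : 𝓜 => g.1 t with hS
  have key : AlgebraicIndependent (Algebra.adjoin F S)
      (fun i => (Gamma ((f i).1 t))⁻¹) := by
    have hmem : ∀ q, ev F 𝓜 t q ∈ Algebra.adjoin F S := by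
      intro q
      rw [hS, Algebra.adjoin_range_eq_range_aeval]
      exact ⟨q, rfl⟩
    let φ : MvPolynomial 𝓜 F →ₐ[F] Algebra.adjoin F S := (ev F 𝓜 t).codRestrict _ hmem
    have hφ : Function.Surjective φ := by
      rintro ⟨x, hx⟩
      have hx' := hx
      rw [hS, Algebra.adjoin_range_eq_range_aeval] at hx'
      obtain ⟨q, hq⟩ := hx'
      exact ⟨q, Subtype.ext hq⟩
    rw [algebraicIndependent_iff]
    intro p hp
    obtain ⟨P, rfl⟩ := MvPolynomial.map_surjective φ.toRingHom hφ p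
    have h1 : Phi f P t = 0 := by
      rw [Phi, ← hp, MvPolynomial.aeval_def, MvPolynomial.eval₂_map]
      rfl
    have h2 := Phi_van hΩ hc h𝓜 f hpole hH' P ((Phi_iff ht hE f P).1 h1)
    ext k
    have h3 := (ev_iff ht hE _).2 (h2 k)
    rw [MvPolynomial.coeff_map, MvPolynomial.coeff_zero]
    exact h3
  have key2 : AlgebraicIndependent (vals F 𝓜 t) (fun i => (Gamma ((f i).1 t))⁻¹) :=
    key.extendScalars (IntermediateField.adjoin F S)
  have := algInd_inv key2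
  simpa only [inv_inv] using this

end Pool.Agent.K9h76.GM
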