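import Mathlib
import Pool.Agent.K9h76.GM.Num
import Pool.Agent.W253.GF.GTD
import Pool.Agent.TH814.GD.AlgMain

/-!
The Schanuel-type conjecture for the Gamma function for the values of a countable family of
meromorphic functions at all but countably many points.
-/

set_option autoImplicit false

open Filter Topology Set Complex Cardinal

namespace Pool.Agent.K9h76.GM

/-- `f` has a pole in `Ω` -/
def HasPole (Ω : Set ℂ) (f : ℂ → ℂ) : Prop := ∃ p ∈ Ω, meromorphicOrderAt f p < 0

/-- `f` is not constant on `Ω` (removable singularities are disregarded) -/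
def NonConst (Ω : Set ℂ) (f : ℂ → ℂ) : Prop := ∀ v : ℂ, ∃ t ∈ Ω, AnalyticAt ℂ f t ∧ f t ≠ v

/-- the field generated by the values of a family at `t` and by the values of `Γ` at the values of
its members without poles -/
noncomputable def valueField (F : Type) [Field F] [Algebra F ℂ] (Ω : Set ℂ) (𝓜 : Set (ℂ → ℂ))
    (t : ℂ) : IntermediateField F ℂ :=
  IntermediateField.adjoin F
    ({x | ∃ g ∈ 𝓜, x = g t} ∪ {x | ∃ g ∈ 𝓜, ¬ HasPole Ω g ∧ x = Gamma (g t)})

lemma NonConst.not_van {Ω : Set ℂ} {f : ℂ → ℂ} (h : NonConst Ω f) (v : ℂ) :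
    ¬ Van Ω (fun t => f t - v) := by
  intro hv
  obtain ⟨t, ht, ha, hne⟩ := h v
  have h1 : AnalyticAt ℂ (fun t => f t - v) t := ha.fun_sub analyticAt_const
  have h2 := (h1.frequently_zero_iff_eventually_zero.1 (hv t ht).frequently).self_of_nhds
  exact hne (sub_eq_zero.1 h2)

/-- a nonconstant function takes values in a countable set only countably often -/
lemma preim_countable {Ω : Set ℂ} (hΩ : IsOpen Ω) (hc : IsPreconnected Ω) {f : ℂ → ℂ}
    (hf : MeromorphicOn f Ω) (hn : NonConst Ω f) {A : Set ℂ} (hA : A.Countable) :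
    {t | t ∈ Ω ∧ f t ∈ A}.Countable := by
  have h1 : {t | t ∈ Ω ∧ f t ∈ A} ⊆ ⋃ v ∈ A, {t | t ∈ Ω ∧ ¬ (f t - v = 0 ↔
      Van Ω (fun t => f t - v))} := by
    rintro t ⟨ht, hA⟩
    refine mem_iUnion₂.2 ⟨f t, hA, ht, fun h => hn.not_van _ (h.1 (sub_self _))⟩
  refine (hA.biUnion fun v _ => ?_).mono h1
  exact exc_countable hΩ hc ((Iso.of_mer hf).sub (Iso.const v))

variable {F : Type} [Field F] [Algebra F ℂ]

/-- the family with the values of `Γ` at its members without poles -/
def ext (Ω : Set ℂ) (𝓜 : Set (ℂ → ℂ)) : Set (ℂ → ℂ) :=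
  𝓜 ∪ (fun g t => Gamma (g t)) '' {g | g ∈ 𝓜 ∧ ¬ HasPole Ω g}

lemma ext_countable {Ω : Set ℂ} {𝓜 : Set (ℂ → ℂ)} (h : 𝓜.Countable) : (ext Ω 𝓜).Countable :=
  h.union ((h.mono fun _ hg => hg.1).image _)

lemma ext_mer {Ω : Set ℂ} {𝓜 : Set (ℂ → ℂ)} (h : ∀ g ∈ 𝓜, MeromorphicOn g Ω) :
    ∀ g ∈ ext Ω 𝓜, MeromorphicOn g Ω := by
  rintro g (hg | ⟨g, ⟨hg, hp⟩, rfl⟩)
  · exact h g hg
  · intro p hp'
    have h1 := (mer_comp entire_Ginv (h g hg p hp') (fun h' => hp ⟨p, hp', h'⟩)).fun_inv
    simpa only [inv_inv] using h1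

lemma vals_ext {Ω : Set ℂ} {𝓜 : Set (ℂ → ℂ)} (t : ℂ) : vals F (ext Ω 𝓜) t = valueField F Ω 𝓜 t := by
  unfold vals valueField
  congr 1
  ext x
  constructor
  · rintro ⟨⟨g, hg | ⟨g, ⟨hg, hp⟩, rfl⟩⟩, rfl⟩
    · exact Or.inl ⟨g, hg, rfl⟩
    · exact Or.inr ⟨g, hg, hp, rfl⟩
  · rintro (⟨g, hg, rfl⟩ | ⟨g, hg, hp, rfl⟩)
    · exact ⟨⟨g, Or.inl hg⟩, rfl⟩
    · exact ⟨⟨fun t => Gamma (g t), Or.inr ⟨g, ⟨hg, hp⟩, rfl⟩⟩, rfl⟩

variable (F) in
/-- exceptional tuples of transcendence degree one (`main_alg` with `m = 0`) -/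
def E1 (n : ℕ) : Set (Fin n → ℂ) := {z |
  Algebra.trdeg F (IntermediateField.adjoin F (Set.range z)) ≤ ((0 + 1 : ℕ) : Cardinal) ∧
  (∀ i j, i ≠ j → ∀ p q : ℚ, z i ≠ p * z j + q) ∧
  Algebra.trdeg F (IntermediateField.adjoin F
    (Set.range z ∪ Set.range fun i => Complex.Gamma (z i))) <
      ((Nat.card {i // ¬ IsAlgebraic F (z i)} + (0 + 1) : ℕ) : Cardinal)}

variable (F) in
/-- exceptional pairs (`main` with `m = 0`) -/
def E2 : Set (Fin 2 → ℂ) := {z |
  (∃ J : Finset (Fin 2), J.card = 0 + 2 ∧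
    ∀ j ∈ J, ¬ (IsAlgebraic F (z j) ∧ IsAlgebraic F (Complex.Gamma (z j)))) ∧
  (∀ i j, i ≠ j → ∀ k : ℤ, z i ≠ z j + k) ∧
  Algebra.trdeg F (IntermediateField.adjoin F
    (Set.range z ∪ Set.range fun i => Complex.Gamma (z i))) ≤ ((2 * 0 + 2 : ℕ) : Cardinal)}

lemma thin_zero {X : Type} [NormedAddCommGroup X] [NormedSpace ℂ X] {S : Set X}
    (h : Pool.Agent.TH814.GD.Thin 0 S) : S.Countable := by
  obtain ⟨Φ, U, -, -, h1⟩ := h
  refine (countable_iUnion fun k => ?_).mono h1
  exact (Set.subsingleton_of_subsingleton (s := U k)).countable.image _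

lemma E1_countable [Countable F] (n : ℕ) : (E1 F n).Countable :=
  thin_zero (Pool.Agent.TH814.GD.main_alg (Pool.Agent.W253.GF.gtd Pool.Agent.W175.GF.gtF) F n 0)

lemma E2_countable [Countable F] : (E2 F).Countable :=
  thin_zero (Pool.Agent.TH814.GD.main F 2 0)

variable (F) in
/-- the exceptional values -/
def Bad : Set ℂ := {z | IsAlgebraic F z} ∪ (⋃ n : ℕ, ⋃ i : Fin n, (fun z : Fin n → ℂ => z i) '' E1 F n) ∪
  ⋃ i : Fin 2, (fun z : Fin 2 → ℂ => z i) '' E2 F

lemma Bad_countable [Countable F] : (Bad F).Countable := by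
  refine ((Algebraic.countable F ℂ).union ?_).union ?_
  · exact countable_iUnion fun n => countable_iUnion fun i => (E1_countable n).image _
  · exact countable_iUnion fun i => E2_countable.image _

lemma three_le {c : Cardinal} (h : ¬ c ≤ ((2 * 0 + 2 : ℕ) : Cardinal)) : ((3 : ℕ) : Cardinal) ≤ c := by
  rw [not_le] at h
  have := Order.succ_le_of_lt h
  rw [Cardinal.succ_natCast] at this
  exact_mod_cast this

theorem main [Countable F] {Ω : Set ℂ} (hΩ : IsOpen Ω) (hc : IsPreconnected Ω)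
    {𝓜 : Set (ℂ → ℂ)} (hcount : 𝓜.Countable) (h𝓜 : ∀ g ∈ 𝓜, MeromorphicOn g Ω) :
    ∃ S : Set ℂ, S.Countable ∧ ∀ t ∈ Ω, t ∉ S → ∀ (n : ℕ) (f : Fin n → ℂ → ℂ), (∀ i, f i ∈ 𝓜) →
      (∀ i j, i ≠ j → ∀ a b : ℚ, f i t ≠ a * f j t + b) →
      AlgebraicIndependent (valueField F Ω 𝓜 t)
        (fun i : {i // HasPole Ω (f i)} => Gamma (f i t)) ∧
      (Nat.card {i // HasPole Ω (f i)} : Cardinal) + Algebra.trdeg F (IntermediateField.adjoin F
          (range (fun i => f i t) ∪ range fun i : {i // ¬ HasPole Ω (f i)} => Gamma (f i t))) ≤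
        Algebra.trdeg F (IntermediateField.adjoin F
          (range (fun i => f i t) ∪ range fun i => Gamma (f i t))) ∧
      (1 ≤ n → (∀ i, NonConst Ω (f i)) →
        ((n - Nat.card {i // ¬ HasPole Ω (f i)} +
            min (Nat.card {i // ¬ HasPole Ω (f i)} + 1) 3 : ℕ) : Cardinal) ≤
          Algebra.trdeg F (IntermediateField.adjoin F
            (range (fun i => f i t) ∪ range fun i => Gamma (f i t))) ∧
        (Algebra.trdeg F (IntermediateField.adjoin F
            (range fun i : {i // ¬ HasPole Ω (f i)} => f i t)) ≤ 1 →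
          ((n + 1 : ℕ) : Cardinal) ≤ Algebra.trdeg F (IntermediateField.adjoin F
            (range (fun i => f i t) ∪ range fun i => Gamma (f i t))))) := by
  classical
  refine ⟨Exc F (ext Ω 𝓜) Ω ∪ ⋃ g : 𝓜, {t | t ∈ Ω ∧ NonConst Ω g.1 ∧ g.1 t ∈ Bad F}, ?_, ?_⟩
  · refine (Exc_countable (ext_countable hcount) hΩ hc (ext_mer h𝓜)).union ?_
    have : Countable 𝓜 := hcount.to_subtype
    refine countable_iUnion fun g => ?_
    by_cases hg : NonConst Ω g.1
    · refine Countable.mono ?_ (preim_countable hΩ hc (h𝓜 _ g.2) hg (Bad_countable (F := F)))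
      rintro t ⟨h1, -, h2⟩
      exact ⟨h1, h2⟩
    · convert countable_empty (α := ℂ)
      ext t
      simp only [mem_ofPred_eq, mem_empty_iff_false, iff_false]
      exact fun h => hg h.2.1
  intro t ht htS n f hf hH
  have hE : t ∉ Exc F (ext Ω 𝓜) Ω := fun h => htS (Or.inl h)
  have hB : ∀ g ∈ 𝓜, NonConst Ω g → g t ∉ Bad F := fun g hg hn h =>
    htS (Or.inr (mem_iUnion_of_mem (⟨g, hg⟩ : 𝓜) ⟨ht, hn, h⟩))
  have h1 : AlgebraicIndependent (valueField F Ω 𝓜 t)
      (fun i : {i // HasPole Ω (f i)} => Gamma (f i t)) := by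
    let e := Fintype.equivFin {i // HasPole Ω (f i)}
    have h := algInd (F := F) hΩ hc (ext_mer h𝓜) ht hE
      (fun k => (⟨f (e.symm k).1, Or.inl (hf _)⟩ : ext Ω 𝓜)) (fun k => (e.symm k).2)
      (fun i j hij => hH _ _ fun h => hij (e.symm.injective (Subtype.ext h)))
    rw [vals_ext] at h
    have h' := h.comp e e.injective
    simpa [Function.comp_def] using h'
  set z : Fin n → ℂ := fun i => f i t with hz
  set M := IntermediateField.adjoin F (range z ∪ range fun i => Gamma (z i)) with hM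
  set cI := Nat.card {i // ¬ HasPole Ω (f i)} with hcI
  set cJ := Nat.card {i // HasPole Ω (f i)} with hcJ
  have hcard : cJ + cI = n := by
    rw [hcJ, hcI, Nat.card_eq_fintype_card, Nat.card_eq_fintype_card, Fintype.card_subtype_compl,
      Fintype.card_fin]
    have : Fintype.card {i // HasPole Ω (f i)} ≤ n := by
      simpa using Fintype.card_subtype_le (fun i : Fin n => HasPole Ω (f i))
    omega
  have hzV : ∀ i, z i ∈ valueField F Ω 𝓜 t := fun i =>
    IntermediateField.subset_adjoin _ _ (Or.inl ⟨f i, hf i, rfl⟩)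
  have hGV : ∀ i, ¬ HasPole Ω (f i) → Gamma (z i) ∈ valueField F Ω 𝓜 t := fun i hi =>
    IntermediateField.subset_adjoin _ _ (Or.inr ⟨f i, hf i, hi, rfl⟩)
  have hzM : ∀ i, z i ∈ M := fun i => IntermediateField.subset_adjoin _ _ (Or.inl ⟨i, rfl⟩)
  have hGM : ∀ i, Gamma (z i) ∈ M := fun i =>
    IntermediateField.subset_adjoin _ _ (Or.inr ⟨i, rfl⟩)
  have h2 : (cJ : Cardinal) + Algebra.trdeg F (IntermediateField.adjoin F
      (range z ∪ range fun i : {i // ¬ HasPole Ω (f i)} => Gamma (z i))) ≤ Algebra.trdeg F M := by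
    rw [hcJ, Nat.cast_card]
    refine add_le_trdeg (IntermediateField.adjoin_le_iff.2 (union_subset ?_ ?_))
      (IntermediateField.adjoin_le_iff.2 (union_subset ?_ ?_)) h1 (fun i => hGM i.1)
    · rintro x ⟨i, rfl⟩
      exact hzV i
    · rintro x ⟨i, rfl⟩
      exact hGV i.1 i.2
    · rintro x ⟨i, rfl⟩
      exact hzM i
    · rintro x ⟨i, rfl⟩
      exact hGM i.1
  refine ⟨h1, h2, fun hn hnc => ?_⟩
  clear h2
  have low : ∀ (L : IntermediateField F ℂ) (c : ℕ), L ≤ valueField F Ω 𝓜 t → L ≤ M →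
      (c : Cardinal) ≤ Algebra.trdeg F L → ((cJ + c : ℕ) : Cardinal) ≤ Algebra.trdeg F M := by
    intro L c hL hLM hcL
    have h2 := add_le_trdeg hL hLM h1 (fun i => hGM i.1)
    refine le_trans ?_ h2
    rw [← Nat.cast_card (α := {i // HasPole Ω (f i)}), Nat.cast_add]
    exact add_le_add_right hcL _
  have hzt : ∀ i, ¬ IsAlgebraic F (z i) := fun i h => hB _ (hf i) (hnc i) (Or.inl (Or.inl h))
  -- no function without pole
  have case0 : cI = 0 → ((n + 1 : ℕ) : Cardinal) ≤ Algebra.trdeg F M := by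
    intro h0
    have i₀ : Fin n := ⟨0, hn⟩
    have h2 := low (IntermediateField.adjoin F {z i₀}) 1
      (IntermediateField.adjoin_le_iff.2 (by simpa using hzV i₀))
      (IntermediateField.adjoin_le_iff.2 (by simpa using hzM i₀)) (by
        have h3 : AlgebraicIndependent F (fun _ : Unit => z i₀) :=
          algebraicIndependent_unique_type_iff.2 (hzt i₀)
        have h4 := card_le_trdeg h3 (M := IntermediateField.adjoin F {z i₀})
          (fun _ => IntermediateField.subset_adjoin _ _ rfl)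
        simpa using h4)
    have h3 : cJ + 1 = n + 1 := by omega
    rwa [h3] at h2
  -- the functions without poles have values of transcendence degree one
  have case1 : 1 ≤ cI → Algebra.trdeg F (IntermediateField.adjoin F
      (range fun i : {i // ¬ HasPole Ω (f i)} => z i)) ≤ 1 →
      ((n + 1 : ℕ) : Cardinal) ≤ Algebra.trdeg F M := by
    intro h0 htr
    let e : {i // ¬ HasPole Ω (f i)} ≃ Fin cI := Finite.equivFin _
    set z' : Fin cI → ℂ := fun k => z (e.symm k).1 with hz'
    have hr : range z' = range fun i : {i // ¬ HasPole Ω (f i)} => z i := by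
      rw [hz']
      exact e.symm.surjective.range_comp (fun i : {i // ¬ HasPole Ω (f i)} => z i)
    have hnE : z' ∉ E1 F cI := by
      intro h
      have k₀ : Fin cI := ⟨0, h0⟩
      exact hB _ (hf _) (hnc (e.symm k₀).1) (Or.inl (Or.inr (mem_iUnion.2 ⟨cI, mem_iUnion.2
        ⟨k₀, z', h, rfl⟩⟩)))
    have h2 : ((cI + 1 : ℕ) : Cardinal) ≤ Algebra.trdeg F (IntermediateField.adjoin F
        (Set.range z' ∪ Set.range fun i => Complex.Gamma (z' i))) := by
      by_contra hcon
      refine hnE ⟨?_, ?_, ?_⟩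
      · rw [hr]
        simpa using htr
      · intro i j hij p q
        exact hH _ _ (fun h => hij (e.symm.injective (Subtype.ext h))) p q
      · have hcI' : Nat.card {i // ¬ IsAlgebraic F (z' i)} = cI := by
          rw [Nat.card_congr (Equiv.subtypeUnivEquiv fun k => hzt (e.symm k).1)]
          simp
        rw [hcI']
        exact not_le.1 hcon
    have h3 := low _ (cI + 1) (IntermediateField.adjoin_le_iff.2 (union_subset ?_ ?_))
      (IntermediateField.adjoin_le_iff.2 (union_subset ?_ ?_)) h2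
    · have h4 : cJ + (cI + 1) = n + 1 := by omega
      rwa [h4] at h3
    · rintro x ⟨k, rfl⟩
      exact hzV _
    · rintro x ⟨k, rfl⟩
      exact hGV _ (e.symm k).2
    · rintro x ⟨k, rfl⟩
      exact hzM _
    · rintro x ⟨k, rfl⟩
      exact hGM _
  refine ⟨?_, fun htr => ?_⟩
  · rcases Nat.eq_zero_or_pos cI with h0 | h0
    · have h2 : n - cI + min (cI + 1) 3 = n + 1 := by omega
      rw [h2]
      exact case0 h0
    rcases Nat.lt_or_ge cI 2 with h2 | h2
    · have h3 : n - cI + min (cI + 1) 3 = n + 1 := by omega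
      rw [h3]
      refine case1 h0 ?_
      refine (trdeg_adjoin_le _).trans ?_
      rw [← Nat.cast_card, ← hcI]
      have : cI = 1 := by omega
      rw [this]
      simp
    · have h3 : n - cI + min (cI + 1) 3 = cJ + 3 := by omega
      rw [h3]
      have h4 : 1 < Nat.card {i // ¬ HasPole Ω (f i)} := h2
      rw [Finite.one_lt_card_iff_nontrivial] at h4
      obtain ⟨i₁, i₂, h12⟩ := h4.exists_pair_ne
      have h12' : i₁.1 ≠ i₂.1 := fun h => h12 (Subtype.ext h)
      set z' : Fin 2 → ℂ := ![z i₁.1, z i₂.1] with hz'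
      have hnE : z' ∉ E2 F := by
        intro h
        refine hB _ (hf i₁.1) (hnc i₁.1) (Or.inr (mem_iUnion.2 ⟨0, z', h, ?_⟩))
        simp [hz', hz]
      have h5 : ¬ Algebra.trdeg F (IntermediateField.adjoin F
          (Set.range z' ∪ Set.range fun i => Complex.Gamma (z' i))) ≤
            ((2 * 0 + 2 : ℕ) : Cardinal) := by
        intro hcon
        refine hnE ⟨⟨Finset.univ, by simp, fun j _ h => ?_⟩, ?_, hcon⟩
        · fin_cases j
          · exact hzt i₁.1 h.1
          · exact hzt i₂.1 h.1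
        · intro i j hij k
          fin_cases i <;> fin_cases j
          · exact absurd rfl hij
          · have := hH _ _ h12' 1 k
            simpa [hz'] using this
          · have := hH _ _ h12'.symm 1 k
            simpa [hz'] using this
          · exact absurd rfl hij
      refine low _ 3 (IntermediateField.adjoin_le_iff.2 (union_subset ?_ ?_))
        (IntermediateField.adjoin_le_iff.2 (union_subset ?_ ?_)) (three_le h5)
      · rintro x ⟨k, rfl⟩
        fin_cases k
        · exact hzV _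
        · exact hzV _
      · rintro x ⟨k, rfl⟩
        fin_cases k
        · exact hGV _ i₁.2
        · exact hGV _ i₂.2
      · rintro x ⟨k, rfl⟩
        fin_cases k
        · exact hzM _
        · exact hzM _
      · rintro x ⟨k, rfl⟩
        fin_cases k
        · exact hGM _
        · exact hGM _
  · rcases Nat.eq_zero_or_pos cI with h0 | h0
    · exact case0 h0
    · exact case1 h0 htr

end Pool.Agent.K9h76.GM
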